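import Pool.Agent.Helper93.IA.StC

/-! Module UN3: the union of three packings with disjoint sets of edges is a packing. -/

set_option autoImplicit false

namespace Pool.Agent.Helper29.IAC

open Pool.Agent.Helper93.IA Finset

/-- The general statement behind the three injectivity fields. -/
private theorem un3_inj {E S : Type} [DecidableEq E] [DecidableEq S] (f : S → E)
    (E1 E2 E3 : Finset E) (P1 P2 P3 : Finset S) (h1 : ∀ T ∈ P1, f T ∈ E1) (h2 : ∀ T ∈ P2, f T ∈ E2)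
    (h3 : ∀ T ∈ P3, f T ∈ E3) (i1 : ∀ T ∈ P1, ∀ T' ∈ P1, f T = f T' → T = T')
    (i2 : ∀ T ∈ P2, ∀ T' ∈ P2, f T = f T' → T = T')
    (i3 : ∀ T ∈ P3, ∀ T' ∈ P3, f T = f T' → T = T')
    (d12 : Disjoint E1 E2) (d13 : Disjoint E1 E3) (d23 : Disjoint E2 E3) :
    ∀ T ∈ P1 ∪ P2 ∪ P3, ∀ T' ∈ P1 ∪ P2 ∪ P3, f T = f T' → T = T' := by
  intro T hT T' hT' h
  simp only [mem_union] at hT hT'
  rw [Finset.disjoint_left] at d12 d13 d23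
  rcases hT with (hT | hT) | hT <;> rcases hT' with (hT' | hT') | hT'
  · exact i1 T hT T' hT' h
  · exact absurd (h ▸ h2 T' hT') (d12 (h1 T hT))
  · exact absurd (h ▸ h3 T' hT') (d13 (h1 T hT))
  · exact absurd (h ▸ h2 T hT) (d12 (h1 T' hT'))
  · exact i2 T hT T' hT' h
  · exact absurd (h ▸ h3 T' hT') (d23 (h2 T hT))
  · exact absurd (h ▸ h3 T hT) (d13 (h1 T' hT'))
  · exact absurd (h ▸ h3 T hT) (d23 (h2 T' hT'))
  · exact i3 T hT T' hT' h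

private theorem un3_mem {E S : Type} [DecidableEq E] [DecidableEq S] (f : S → E)
    (E0 E1 E2 E3 : Finset E) (P1 P2 P3 : Finset S) (h1 : ∀ T ∈ P1, f T ∈ E1)
    (h2 : ∀ T ∈ P2, f T ∈ E2) (h3 : ∀ T ∈ P3, f T ∈ E3) (hs : E1 ⊆ E0 ∧ E2 ⊆ E0 ∧ E3 ⊆ E0) :
    ∀ T ∈ P1 ∪ P2 ∪ P3, f T ∈ E0 := by
  intro T hT
  simp only [mem_union] at hT
  rcases hT with (hT | hT) | hT
  · exact hs.1 (h1 T hT)
  · exact hs.2.1 (h2 T hT)
  · exact hs.2.2 (h3 T hT)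

/-- UN3. -/
theorem hUN3 : StUN3 := by
  intro α β γ _ _ _ A A1 A2 A3 B B1 B2 B3 C C1 C2 C3 P1 P2 P3 p1 p2 p3 sA sB sC dA dB dC
  exact
    { sA := un3_mem eA A A1 A2 A3 P1 P2 P3 p1.sA p2.sA p3.sA sA
      sB := un3_mem eB B B1 B2 B3 P1 P2 P3 p1.sB p2.sB p3.sB sB
      sC := un3_mem eC C C1 C2 C3 P1 P2 P3 p1.sC p2.sC p3.sC sC
      iA := un3_inj eA A1 A2 A3 P1 P2 P3 p1.sA p2.sA p3.sA p1.iA p2.iA p3.iA dA.1 dA.2.1 dA.2.2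
      iB := un3_inj eB B1 B2 B3 P1 P2 P3 p1.sB p2.sB p3.sB p1.iB p2.iB p3.iB dB.1 dB.2.1 dB.2.2
      iC := un3_inj eC C1 C2 C3 P1 P2 P3 p1.sC p2.sC p3.sC p1.iC p2.iC p3.iC dC.1 dC.2.1 dC.2.2 }

end Pool.Agent.Helper29.IAC
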